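import Mathlib

/-!
# Strongly equistable graphs are not closed under substitution

Let `F` be the triangle-free graph with the vertices `a₁, …, a₄, x, y, z₁, z₂, z₃` and one pendant
vertex at each of `x, y, z₁, z₂, z₃`, where `a₁ ~ x, z₁, z₂`, `a₂ ~ x, z₂, z₃`, `a₃ ~ y, z₁, z₂`,
`a₄ ~ y, z₂, z₃` and `x ~ y`.  Let `G` be the complement of the line graph of `F` (18 vertices); its
maximal stable sets are the nine stars of the vertices that are not pendant.  `G` is strongly
equistable, but after substituting the complete graph `K₂` for the vertex `xy` of `G`, the set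
consisting of the five pendant edges and the two copies of `xy` has total weight one for every
weighting in which all maximal stable sets have weight one: it is the sum of the stars of
`x, y, z₁, z₂, z₃` minus the sum of the stars of `a₁, …, a₄`.
-/

set_option autoImplicit false
set_option maxRecDepth 100000

namespace Pool.Agent.Results.MP_89a31a_co.SubstitutionFails

open Finset

/-- `S` is a maximal stable set of the graph `G`. -/
def MaxStable {V : Type} (G : SimpleGraph V) (S : Finset V) : Prop :=
  Maximal (fun S : Finset V => ∀ u ∈ S, ∀ v ∈ S, ¬ G.Adj u v) S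

/-- `G` is strongly equistable: for every nonempty set `T` of vertices that is not a maximal stable
set, and every real number `γ ≤ 1`, there are positive weights of the vertices for which every
maximal stable set has total weight `1` and the total weight of `T` is not `γ`. -/
def StronglyEquistable {V : Type} (G : SimpleGraph V) : Prop :=
  ∀ T : Finset V, T.Nonempty → ¬ MaxStable G T → ∀ γ : ℝ, γ ≤ 1 →
    ∃ φ : V → ℝ, (∀ v, 0 < φ v) ∧ (∀ S, MaxStable G S → ∑ v ∈ S, φ v = 1) ∧ ∑ v ∈ T, φ v ≠ γ

/-- The graph obtained from `G` by substituting `H` for the vertex `v`: delete `v`, add a disjoint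
copy of `H`, and join each vertex of the copy to all neighbours of `v` in `G`. -/
def subst {V W : Type} (G : SimpleGraph V) (v : V) (H : SimpleGraph W) :
    SimpleGraph ({u : V // u ≠ v} ⊕ W) where
  Adj p q := match p, q with
    | Sum.inl a, Sum.inl b => G.Adj a.1 b.1
    | Sum.inl a, Sum.inr _ => G.Adj a.1 v
    | Sum.inr _, Sum.inl b => G.Adj b.1 v
    | Sum.inr c, Sum.inr d => H.Adj c d
  symm := ⟨by
    rintro (a | c) (b | d) h
    · exact G.adj_symm h
    · exact h
    · exact h
    · exact H.adj_symm h⟩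
  loopless := ⟨by
    rintro (a | c) h
    · exact G.loopless.irrefl _ h
    · exact H.loopless.irrefl _ h⟩

/-- The ends of the edges of `F`. -/
def ends : Fin 18 → ℕ × ℕ :=
  ![(0, 4), (0, 6), (0, 7), (1, 4), (1, 7), (1, 8), (2, 5), (2, 6), (2, 7), (3, 5), (3, 7), (3, 8),
    (4, 5), (4, 9), (5, 10), (6, 11), (7, 12), (8, 13)]

/-- Two edges of `F` have a common end. -/
def touch (i j : Fin 18) : Bool :=
  (ends i).1 == (ends j).1 || (ends i).1 == (ends j).2 || (ends i).2 == (ends j).1 ||
    (ends i).2 == (ends j).2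

theorem touch_comm : ∀ i j, touch i j = touch j i := by decide

theorem touch_self : ∀ i, touch i i = true := by decide

/-- The complement of the line graph of `F`. -/
def G₀ : SimpleGraph (Fin 18) where
  Adj i j := touch i j = false
  symm := ⟨fun i j (h : touch i j = false) => (touch_comm j i).trans h⟩
  loopless := ⟨fun i (h : touch i i = false) => by
    rw [touch_self] at h
    exact absurd h (by decide)⟩

instance : DecidableRel G₀.Adj := fun i j => inferInstanceAs (Decidable (touch i j = false))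

/-- The star of a vertex of `F`. -/
def star (s : Fin 9) : Finset (Fin 18) :=
  univ.filter fun i => (ends i).1 = s ∨ (ends i).2 = s

theorem star_stable : ∀ s : Fin 9, ∀ e ∈ star s, ∀ f ∈ star s, touch e f = true := by decide

theorem star_max : ∀ s : Fin 9, ∀ g : Fin 18, (∀ e ∈ star s, touch g e = true) → g ∈ star s := by
  decide

theorem two_edges : ∀ e f : Fin 18, e ≠ f → touch e f = true → ∃ s : Fin 9, e ∈ star s ∧
    f ∈ star s ∧ ∀ g, touch g e = true → touch g f = true → g ∈ star s := by
  decide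

theorem exists_touch : ∀ e : Fin 18, ∃ f, f ≠ e ∧ touch f e = true := by decide

theorem maxStable_of {V : Type} {G : SimpleGraph V} {S : Finset V}
    (h1 : ∀ u ∈ S, ∀ v ∈ S, ¬ G.Adj u v) (h2 : ∀ u, (∀ v ∈ S, ¬ G.Adj u v) → u ∈ S) :
    MaxStable G S := by
  refine ⟨h1, fun T hT hST u hu => h2 u fun v hv => hT u hu v (hST hv)⟩

theorem maxStable_iff (S : Finset (Fin 18)) : MaxStable G₀ S ↔ ∃ s, S = star s := by
  have hadj : ∀ i j, ¬ G₀.Adj i j ↔ touch i j = true := fun i j => by
    change ¬ (touch i j = false) ↔ _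
    simp
  constructor
  · rintro ⟨h1, h2⟩
    have h1' : ∀ u ∈ S, ∀ v ∈ S, touch u v = true := fun u hu v hv => (hadj u v).1 (h1 u hu v hv)
    have h2' : ∀ T : Finset (Fin 18), (∀ u ∈ T, ∀ v ∈ T, touch u v = true) → S ⊆ T → T ⊆ S :=
      fun T hT hST => h2 (fun u hu v hv => (hadj u v).2 (hT u hu v hv)) hST
    have hne : S.Nonempty := by
      rw [nonempty_iff_ne_empty]
      rintro rfl
      have := h2' {0} (by decide) (by simp) (mem_singleton_self 0)
      simp at this
    obtain ⟨e, he⟩ := hne
    obtain ⟨f, hf, hfe⟩ : ∃ f ∈ S, f ≠ e := by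
      by_contra hcon
      push Not at hcon
      obtain ⟨f, hfe, ht⟩ := exists_touch e
      have hS : S ⊆ {e, f} := fun u hu => by simp [hcon u hu]
      have := h2' {e, f} (by
        intro u hu v hv
        simp only [mem_insert, mem_singleton] at hu hv
        rcases hu with rfl | rfl <;> rcases hv with rfl | rfl
        · exact touch_self _
        · rw [touch_comm]; exact ht
        · exact ht
        · exact touch_self _) hS (by simp : f ∈ ({e, f} : Finset (Fin 18)))
      exact hfe (hcon f this)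
    obtain ⟨s, hes, hfs, hs⟩ := two_edges f e hfe (h1' f hf e he)
    refine ⟨s, ?_⟩
    have hsub : S ⊆ star s := fun g hg => hs g (h1' g hg f hf) (h1' g hg e he)
    exact Subset.antisymm hsub (h2' _ (star_stable s) hsub)
  · rintro ⟨s, rfl⟩
    exact maxStable_of (fun u hu v hv => (hadj u v).2 (star_stable s u hu v hv))
      fun u hu => star_max s u fun e he => (hadj u e).1 (hu e he)

/-- Ten times a positive weighting. -/
def w : Fin 18 → ℤ := ![4, 4, 2, 4, 2, 4, 4, 4, 2, 4, 2, 4, 1, 1, 1, 2, 2, 2]

/-- Directions which do not change the weights of the stars. -/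
def d : Fin 9 → Fin 18 → ℤ :=
  ![![1, -1, 0, 0, 0, 0, 0, 0, 0, 0, 0, 0, 0, -1, 0, 1, 0, 0],
    ![1, 0, -1, 0, 0, 0, 0, 0, 0, 0, 0, 0, 0, -1, 0, 0, 1, 0],
    ![0, 0, 0, 1, -1, 0, 0, 0, 0, 0, 0, 0, 0, -1, 0, 0, 1, 0],
    ![0, 0, 0, 1, 0, -1, 0, 0, 0, 0, 0, 0, 0, -1, 0, 0, 0, 1],
    ![0, 0, 0, 0, 0, 0, 1, -1, 0, 0, 0, 0, 0, 0, -1, 1, 0, 0],
    ![0, 0, 0, 0, 0, 0, 1, 0, -1, 0, 0, 0, 0, 0, -1, 0, 1, 0],
    ![0, 0, 0, 0, 0, 0, 0, 0, 0, 1, -1, 0, 0, 0, -1, 0, 1, 0],
    ![0, 0, 0, 0, 0, 0, 0, 0, 0, 1, 0, -1, 0, 0, -1, 0, 0, 1],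
    ![0, 0, 0, 0, 0, 0, 0, 0, 0, 0, 0, 0, 1, -1, -1, 0, 0, 0]]

theorem w_star : ∀ s, ∑ i ∈ star s, w i = 10 := by decide

theorem d_star : ∀ k s, ∑ i ∈ star s, d k i = 0 := by decide

theorem pos0 : ∀ i, 0 < w i := by decide

theorem pos1 : ∀ k i, 0 < 2 * w i + d k i := by decide

/-- The sets of edges which are orthogonal to all directions and have weight at most one. -/
theorem key : ∀ t12 t13 t14 t15 t16 t17 : Bool, t12.toNat = t13.toNat + t14.toNat →
    ∀ t0 t1 t2 : Bool, t0.toNat + t15.toNat = t1.toNat + t13.toNat →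
      t0.toNat + t16.toNat = t2.toNat + t13.toNat →
    ∀ t3 t4 t5 : Bool, t3.toNat + t16.toNat = t4.toNat + t13.toNat →
      t3.toNat + t17.toNat = t5.toNat + t13.toNat →
    ∀ t6 t7 t8 : Bool, t6.toNat + t15.toNat = t7.toNat + t14.toNat →
      t6.toNat + t16.toNat = t8.toNat + t14.toNat →
    ∀ t9 t10 t11 : Bool, t9.toNat + t16.toNat = t10.toNat + t14.toNat →
      t9.toNat + t17.toNat = t11.toNat + t14.toNat →
    4 * t0.toNat + 4 * t1.toNat + 2 * t2.toNat + 4 * t3.toNat + 2 * t4.toNat + 4 * t5.toNat +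
      4 * t6.toNat + 4 * t7.toNat + 2 * t8.toNat + 4 * t9.toNat + 2 * t10.toNat + 4 * t11.toNat +
      t12.toNat + t13.toNat + t14.toNat + 2 * t15.toNat + 2 * t16.toNat + 2 * t17.toNat ≤ 10 →
    (∀ i, ![t0, t1, t2, t3, t4, t5, t6, t7, t8, t9, t10, t11, t12, t13, t14, t15, t16, t17] i =
      false) ∨ ∃ s : Fin 9, ∀ i,
      ![t0, t1, t2, t3, t4, t5, t6, t7, t8, t9, t10, t11, t12, t13, t14, t15, t16, t17] i =
      decide (i ∈ star s) := by
  decide

theorem sum_mem (T : Finset (Fin 18)) (f : Fin 18 → ℤ) :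
    ∑ i ∈ T, f i = ∑ i, f i * (decide (i ∈ T)).toNat := by
  rw [← Finset.sum_filter_add_sum_filter_not univ (· ∈ T)]
  rw [Finset.sum_congr (s₁ := univ.filter (· ∈ T)) rfl (g := f) (fun i hi => by
    simp [(mem_filter.1 hi).2])]
  rw [Finset.sum_eq_zero (s := univ.filter (¬ · ∈ T)) (fun i hi => by
    simp [(mem_filter.1 hi).2])]
  simp

theorem key' (b : Fin 18 → Bool) (hd : ∀ k, ∑ i, d k i * ((b i).toNat : ℤ) = 0)
    (hw : ∑ i, w i * ((b i).toNat : ℤ) ≤ 10) :
    (∀ i, b i = false) ∨ ∃ s : Fin 9, ∀ i, b i = decide (i ∈ star s) := by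
  have h0 := hd 0
  have h1 := hd 1
  have h2 := hd 2
  have h3 := hd 3
  have h4 := hd 4
  have h5 := hd 5
  have h6 := hd 6
  have h7 := hd 7
  have h8 := hd 8
  simp only [Fin.sum_univ_def, List.finRange_succ, List.finRange_zero, List.map_cons, List.map_nil,
    List.sum_cons, List.sum_nil, d, w] at h0 h1 h2 h3 h4 h5 h6 h7 h8 hw
  simp at h0 h1 h2 h3 h4 h5 h6 h7 h8 hw
  have hk := key (b 12) (b 13) (b 14) (b 15) (b 16) (b 17) (by omega) (b 0) (b 1) (b 2) (by omega)
    (by omega) (b 3) (b 4) (b 5) (by omega) (by omega) (b 6) (b 7) (b 8) (by omega) (by omega)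
    (b 9) (b 10) (b 11) (by omega) (by omega) (by omega)
  have hb : ∀ i, ![b 0, b 1, b 2, b 3, b 4, b 5, b 6, b 7, b 8, b 9, b 10, b 11, b 12, b 13, b 14,
      b 15, b 16, b 17] i = b i := by
    intro i
    fin_cases i <;> rfl
  simpa only [hb] using hk

theorem eq_empty_or_star (T : Finset (Fin 18)) (hd : ∀ k, ∑ i ∈ T, d k i = 0)
    (hw : ∑ i ∈ T, w i ≤ 10) : T = ∅ ∨ ∃ s, T = star s := by
  rcases key' (fun i => decide (i ∈ T)) (fun k => by rw [← sum_mem]; exact hd k)
    (by rw [← sum_mem]; exact hw) with h | ⟨s, h⟩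
  · left
    ext i
    simpa using h i
  · right
    refine ⟨s, ?_⟩
    ext i
    simpa using h i

/-- `G₀` is strongly equistable. -/
theorem stronglyEquistable_G₀ : StronglyEquistable G₀ := by
  intro T hT hTS γ hγ
  by_contra hcon
  push Not at hcon
  have hstar : ∀ f : Fin 18 → ℤ, (∀ i, 0 < f i) → (∀ s, ∑ i ∈ star s, f i = 20) →
      (∑ i ∈ T, f i : ℤ) = 20 * γ := by
    intro f hf hs
    have h := hcon (fun i => (f i : ℝ) / 20)
      (fun i => div_pos (by exact_mod_cast hf i) (by norm_num)) (by
        intro S hS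
        obtain ⟨s, rfl⟩ := (maxStable_iff S).1 hS
        rw [← Finset.sum_div, div_eq_one_iff_eq (by norm_num)]
        exact_mod_cast hs s)
    rw [← Finset.sum_div] at h
    push_cast
    linarith
  have h0 := hstar (fun i => 2 * w i) (fun i => by have := pos0 i; omega) (fun s => by
    rw [← Finset.mul_sum, w_star]
    norm_num)
  have h1 : ∀ k, ∑ i ∈ T, d k i = 0 := by
    intro k
    have h2 := hstar (fun i => 2 * w i + d k i) (pos1 k) (fun s => by
      rw [Finset.sum_add_distrib, ← Finset.mul_sum, w_star, d_star]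
      norm_num)
    rw [Finset.sum_add_distrib] at h2
    push_cast at h0 h2
    have h3 : ((∑ i ∈ T, d k i : ℤ) : ℝ) = 0 := by
      push_cast
      linarith
    exact_mod_cast h3
  have h2 : ∑ i ∈ T, w i ≤ 10 := by
    rw [← Finset.mul_sum] at h0
    push_cast at h0
    have h3 : ((∑ i ∈ T, w i : ℤ) : ℝ) ≤ 10 := by
      push_cast
      linarith
    exact_mod_cast h3
  rcases eq_empty_or_star T h1 h2 with h | h
  · exact hT.ne_empty h
  · exact hTS ((maxStable_iff T).2 h)

/-- The complete graph on two vertices is strongly equistable. -/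
theorem stronglyEquistable_K₂ : StronglyEquistable (⊤ : SimpleGraph (Fin 2)) := by
  have hsing : ∀ c : Fin 2, MaxStable (⊤ : SimpleGraph (Fin 2)) {c} := by
    intro c
    refine maxStable_of ?_ ?_
    · intro u hu v hv
      rw [mem_singleton] at hu hv
      subst hu
      subst hv
      simp
    · intro u hu
      have := hu c (mem_singleton_self c)
      simpa using this
  have hcard : ∀ S, MaxStable (⊤ : SimpleGraph (Fin 2)) S → S.card = 1 := by
    intro S hS
    rw [Finset.card_eq_one]
    have hne : S.Nonempty := by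
      rw [nonempty_iff_ne_empty]
      rintro rfl
      have := hS.2 (hsing 0).1 (by simp) (mem_singleton_self 0)
      simp at this
    obtain ⟨c, hc⟩ := hne
    refine ⟨c, ?_⟩
    ext u
    rw [mem_singleton]
    constructor
    · intro hu
      have := hS.1 u hu c hc
      simpa using this
    · rintro rfl
      exact hc
  intro T hT hTS γ hγ
  refine ⟨fun _ => 1, fun _ => one_pos, fun S hS => by simp [hcard S hS], ?_⟩
  have h2 : 1 < T.card := by
    by_contra h
    have h1 : T.card = 1 := le_antisymm (not_lt.1 h) hT.card_pos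
    obtain ⟨c, rfl⟩ := Finset.card_eq_one.1 h1
    exact hTS (hsing c)
  have h3 : (1 : ℝ) < T.card := by exact_mod_cast h2
  simp only [sum_const, nsmul_eq_mul, mul_one]
  intro h4
  linarith

/-- The graph `G₀` with the complete graph `K₂` substituted for the vertex `12`. -/
def G₁ : SimpleGraph ({u : Fin 18 // u ≠ 12} ⊕ Fin 2) := subst G₀ 12 ⊤

instance : DecidableRel G₁.Adj := fun p q =>
  match p, q with
  | Sum.inl a, Sum.inl b => inferInstanceAs (Decidable (touch a.1 b.1 = false))
  | Sum.inl a, Sum.inr _ => inferInstanceAs (Decidable (touch a.1 12 = false))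
  | Sum.inr _, Sum.inl b => inferInstanceAs (Decidable (touch b.1 12 = false))
  | Sum.inr c, Sum.inr d => inferInstanceAs (Decidable ((⊤ : SimpleGraph (Fin 2)).Adj c d))

/-- The vertices of `G₁` which are vertices of `G₀`. -/
def o (i : Fin 18) : {u : Fin 18 // u ≠ 12} ⊕ Fin 2 :=
  if h : i ≠ 12 then Sum.inl ⟨i, h⟩ else Sum.inr 0

theorem ms1 : MaxStable G₁ {o 0, o 3, o 13, Sum.inr 0} :=
  maxStable_of (by decide) (by decide)

theorem ms2 : MaxStable G₁ {o 6, o 9, o 14, Sum.inr 1} :=
  maxStable_of (by decide) (by decide)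

theorem ms3 : MaxStable G₁ {o 1, o 7, o 15} := maxStable_of (by decide) (by decide)

theorem ms4 : MaxStable G₁ {o 2, o 4, o 8, o 10, o 16} := maxStable_of (by decide) (by decide)

theorem ms5 : MaxStable G₁ {o 5, o 11, o 17} := maxStable_of (by decide) (by decide)

theorem ms6 : MaxStable G₁ {o 0, o 1, o 2} := maxStable_of (by decide) (by decide)

theorem ms7 : MaxStable G₁ {o 3, o 4, o 5} := maxStable_of (by decide) (by decide)

theorem ms8 : MaxStable G₁ {o 6, o 7, o 8} := maxStable_of (by decide) (by decide)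

theorem ms9 : MaxStable G₁ {o 9, o 10, o 11} := maxStable_of (by decide) (by decide)

/-- `G₁` is not strongly equistable. -/
theorem not_stronglyEquistable : ¬ StronglyEquistable (subst G₀ 12 (⊤ : SimpleGraph (Fin 2))) := by
  intro h
  obtain ⟨φ, -, h1, h2⟩ := h {o 13, o 14, o 15, o 16, o 17, Sum.inr 0, Sum.inr 1}
    (insert_nonempty _ _) (fun h => by
      have := h.1 (Sum.inr 0) (by simp) (Sum.inr 1) (by simp)
      exact this (show (0 : Fin 2) ≠ 1 by decide)) 1 le_rfl
  have e1 := h1 _ ms1
  have e2 := h1 _ ms2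
  have e3 := h1 _ ms3
  have e4 := h1 _ ms4
  have e5 := h1 _ ms5
  have e6 := h1 _ ms6
  have e7 := h1 _ ms7
  have e8 := h1 _ ms8
  have e9 := h1 _ ms9
  rw [sum_insert (by decide), sum_insert (by decide), sum_insert (by decide),
    sum_singleton] at e1 e2
  rw [sum_insert (by decide), sum_insert (by decide), sum_singleton] at e3 e5 e6 e7 e8 e9
  rw [sum_insert (by decide), sum_insert (by decide), sum_insert (by decide),
    sum_insert (by decide), sum_singleton] at e4
  rw [sum_insert (by decide), sum_insert (by decide), sum_insert (by decide),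
    sum_insert (by decide), sum_insert (by decide), sum_insert (by decide), sum_singleton] at h2
  exact h2 (by linarith)

/-- **The class of strongly equistable graphs is not closed under substitution** (the question of
Mahadev, Peled and Sun, 1994, has a negative answer): there are a strongly equistable graph `G`
with 18 vertices and a vertex `v` of `G` such that the graph obtained from `G` by substituting the
complete graph `K₂` (which is strongly equistable) for `v` is not strongly equistable. -/
theorem result : ∃ (G : SimpleGraph (Fin 18)) (v : Fin 18), StronglyEquistable G ∧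
    StronglyEquistable (⊤ : SimpleGraph (Fin 2)) ∧
    ¬ StronglyEquistable (subst G v (⊤ : SimpleGraph (Fin 2))) :=
  ⟨G₀, 12, stronglyEquistable_G₀, stronglyEquistable_K₂, not_stronglyEquistable⟩

end Pool.Agent.Results.MP_89a31a_co.SubstitutionFails
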